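import Mathlib
import Pool.Agent.helper38.OB.Spec

set_option autoImplicit false

namespace Pool.Agent.OB

open Finset

theorem TA_memU {h l0 L x : ℕ} : x ∈ U h l0 L ↔ ∃ k, (l0 ≤ k ∧ k ≤ L) ∧ x ∈ S h k := by
  unfold U
  rw [Finset.mem_biUnion]
  simp only [Finset.mem_Icc]

theorem TA_memRP {j : ℕ} {c : Fin j → ℤ} {P : ℤ → Prop} {V : Finset ℕ} {x : Fin j → ℕ} :
    x ∈ RQ c P V ↔ ((∀ i, x i ∈ V) ∧ Function.Injective x) ∧ P (lf c x) := by
  unfold RQ Inj
  simp only [Finset.mem_filter, Fintype.mem_piFinset]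

theorem TA_memtop {h l j : ℕ} {F : Finset (Fin j → ℕ)} {x : Fin j → ℕ} :
    x ∈ top h l F ↔ x ∈ F ∧ ∃ i, lev h (x i) = l := by
  unfold top
  simp only [Finset.mem_filter]

theorem TA_biUnion {ι α : Type} [DecidableEq α] [DecidableEq ι] (s : Finset ι) (t : ι → Finset α) (f : α → ℝ)
    (hf : ∀ x, 0 ≤ f x) : ∑ x ∈ s.biUnion t, f x ≤ ∑ i ∈ s, ∑ x ∈ t i, f x := by
  induction s using Finset.induction_on with
  | empty => simp
  | insert a s ha ih =>
    rw [Finset.biUnion_insert, Finset.sum_insert ha]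
    have h1 := Finset.sum_union_inter (s₁ := t a) (s₂ := s.biUnion t) (f := f)
    have h2 : 0 ≤ ∑ x ∈ t a ∩ s.biUnion t, f x := Finset.sum_nonneg fun x _ => hf x
    linarith

theorem TA_be_pos (h : ℕ) (hh : 3 ≤ h) : 0 < be h := by
  unfold be C0
  positivity

theorem TA (hBAS : BAS_stmt) (hWTS : WTS_stmt) (hLOW : LOW_stmt) (hELI : ELI_stmt) : TA_stmt := by
  classical
  intro h hh
  have hC0 : 0 < C0 h := by unfold C0; positivity
  refine ⟨(h : ℝ) * (C0 h : ℝ) * 2 ^ h, by positivity, ?_⟩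
  intro κ hκ0 hκ1 l0 l j c hj1 hjh hc n
  set w : ℕ → ℝ := wt h κ with hw
  have hw0 : ∀ y, 0 ≤ w y := fun y => (hWTS h hh κ hκ0 hκ1 (lev h y)).2.1.le
  have hpl := hWTS h hh κ hκ0 hκ1 l
  have hb : (0 : ℝ) < be h := by exact_mod_cast TA_be_pos h hh
  have hb1 : (1 : ℝ) ≤ be h := by exact_mod_cast TA_be_pos h hh
  -- the sets
  let V : Fin j → Fin j → Finset ℕ := fun i0 i => if i = i0 then S h l else U h l0 l
  have hlev : ∀ x ∈ U h l0 l, lev h x = l → x ∈ S h l := by
    intro x hx hl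
    obtain ⟨k, -, hk⟩ := TA_memU.1 hx
    have h1 := ((hBAS h hh k).1 x hk).1
    rw [hl] at h1
    rw [h1]
    exact hk
  have hsub : top h l (RP c n (U h l0 l)) ⊆
      Finset.univ.biUnion fun i0 : Fin j => (Fintype.piFinset (V i0)).filter fun x => lf c x = n := by
    intro x hx
    obtain ⟨hx1, i0, hi0⟩ := TA_memtop.1 hx
    obtain ⟨⟨hx2, -⟩, hx3⟩ := TA_memRP.1 hx1
    rw [Finset.mem_biUnion]
    refine ⟨i0, Finset.mem_univ _, ?_⟩
    rw [Finset.mem_filter, Fintype.mem_piFinset]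
    refine ⟨fun i => ?_, hx3⟩
    by_cases hi : i = i0
    · change x i ∈ (if i = i0 then S h l else U h l0 l)
      rw [if_pos hi, hi]
      exact hlev _ (hx2 i0) hi0
    · change x i ∈ (if i = i0 then S h l else U h l0 l)
      rw [if_neg hi]
      exact hx2 i
  have hprod0 : ∀ x : Fin j → ℕ, 0 ≤ ∏ i, w (x i) := fun x => Finset.prod_nonneg fun i _ => hw0 _
  have h1 : Ex h κ (top h l (RP c n (U h l0 l))) ≤
      ∑ i0 : Fin j, ∑ x ∈ (Fintype.piFinset (V i0)).filter (fun x => lf c x = n), ∏ i, w (x i) := by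
    unfold Ex
    refine (Finset.sum_le_sum_of_subset_of_nonneg hsub fun x _ _ => hprod0 x).trans ?_
    exact TA_biUnion _ _ _ fun x => hprod0 x
  have h2 : ∀ i0 : Fin j, ∑ x ∈ (Fintype.piFinset (V i0)).filter (fun x => lf c x = n), ∏ i, w (x i) ≤
      (C0 h : ℝ) * 2 ^ h * ((l : ℝ) + 1) / (be h : ℝ) ^ l := by
    intro i0
    have h3 := hELI j (V i0) w i0 (fun x => lf c x = n) (pl h κ l) 1 hw0 hpl.2.1.le zero_le_one ?_ ?_
    · refine h3.trans ?_
      have h4 : ∏ i ∈ Finset.univ.erase i0, ∑ y ∈ V i0 i, w y ≤ (2 * (be h : ℝ) ^ l) ^ (h - 2) := by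
        have h5 : ∀ i ∈ Finset.univ.erase i0, ∑ y ∈ V i0 i, w y ≤ 2 * (be h : ℝ) ^ l := by
          intro i hi
          have hi' : i ≠ i0 := Finset.ne_of_mem_erase hi
          have h6 : V i0 i = U h l0 l := if_neg hi'
          rw [h6]
          refine ((hLOW h hh κ hκ0 hκ1 l0 l 0).1).trans ?_
          have h7 : (0 : ℝ) ≤ (be h : ℝ) ^ l := by positivity
          nlinarith
        have h6 : ∏ i ∈ Finset.univ.erase i0, ∑ y ∈ V i0 i, w y ≤
            ∏ i ∈ (Finset.univ.erase i0 : Finset (Fin j)), 2 * (be h : ℝ) ^ l :=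
          Finset.prod_le_prod (fun i _ => Finset.sum_nonneg fun y _ => hw0 y) h5
        refine h6.trans ?_
        rw [Finset.prod_const, Finset.card_erase_of_mem (Finset.mem_univ _), Finset.card_univ,
          Fintype.card_fin]
        have h7 : (1 : ℝ) ≤ 2 * (be h : ℝ) ^ l := by
          have := one_le_pow₀ hb1 (n := l)
          linarith
        exact pow_le_pow_right₀ h7 (by omega)
      have h5 : pl h κ l ≤ (be h : ℝ) ^ l * ((C0 h : ℝ) * (l + 1)) / (Bs h : ℝ) ^ (l + 1) := by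
        unfold pl
        have h6 : (C0 h : ℝ) ^ (dep h l + 1) ≤ (C0 h : ℝ) * (l + 1) := by
          rw [pow_succ, mul_comm]
          have h7 : (C0 h : ℝ) ^ dep h l ≤ (l : ℝ) + 1 := by
            exact_mod_cast (hBAS h hh l).2.2.2.2.1
          have h8 : (0 : ℝ) ≤ C0 h := by positivity
          exact mul_le_mul_of_nonneg_left h7 h8
        have h9 : (0 : ℝ) < (Bs h : ℝ) ^ (l + 1) := by
          have : 0 < Bs h := by
            unfold Bs
            exact pow_pos (TA_be_pos h hh) _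
          positivity
        rw [div_le_div_iff_of_pos_right h9]
        have h10 : (0 : ℝ) ≤ (be h : ℝ) ^ l := by positivity
        have h11 : (0 : ℝ) ≤ (C0 h : ℝ) ^ (dep h l + 1) := by positivity
        have h12 : κ * (be h : ℝ) ^ l ≤ (be h : ℝ) ^ l := by nlinarith
        exact mul_le_mul h12 h6 h11 h10
      rw [one_mul]
      have h6 : 0 ≤ ∏ i ∈ Finset.univ.erase i0, ∑ y ∈ V i0 i, w y :=
        Finset.prod_nonneg fun i _ => Finset.sum_nonneg fun y _ => hw0 y
      have h9 : (0 : ℝ) < (Bs h : ℝ) ^ (l + 1) := by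
        have : 0 < Bs h := by
          unfold Bs
          exact pow_pos (TA_be_pos h hh) _
        positivity
      have h7 := mul_le_mul h5 h4 h6 (by positivity)
      refine h7.trans ?_
      have h10 : (Bs h : ℝ) ^ (l + 1) = (be h : ℝ) ^ (h * (l + 1)) := by
        unfold Bs
        push_cast
        rw [← pow_mul]
      rw [h10, mul_pow, ← pow_mul, div_mul_eq_mul_div, div_le_div_iff₀ (by positivity) (by positivity)]
      have h11 : (2 : ℝ) ^ (h - 2) ≤ 2 ^ h := pow_le_pow_right₀ (by norm_num) (by omega)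
      have h12 : (be h : ℝ) ^ l * (be h : ℝ) ^ (l * (h - 2)) * (be h : ℝ) ^ l ≤ (be h : ℝ) ^ (h * (l + 1)) := by
        rw [← pow_add, ← pow_add]
        refine pow_le_pow_right₀ hb1 ?_
        obtain ⟨m, rfl⟩ : ∃ m, h = m + 2 := ⟨h - 2, by omega⟩
        have : m + 2 - 2 = m := by omega
        rw [this]
        nlinarith
      have h13 : (0 : ℝ) ≤ (C0 h : ℝ) * (l + 1) := by positivity
      calc (be h : ℝ) ^ l * ((C0 h : ℝ) * (l + 1)) * (2 ^ (h - 2) * (be h : ℝ) ^ (l * (h - 2))) * (be h : ℝ) ^ l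
          = ((C0 h : ℝ) * (l + 1)) * 2 ^ (h - 2) *
            ((be h : ℝ) ^ l * (be h : ℝ) ^ (l * (h - 2)) * (be h : ℝ) ^ l) := by ring
        _ ≤ ((C0 h : ℝ) * (l + 1)) * 2 ^ h * (be h : ℝ) ^ (h * (l + 1)) := by
          refine mul_le_mul (mul_le_mul_of_nonneg_left h11 h13) h12 (by positivity) (by positivity)
        _ = (C0 h : ℝ) * 2 ^ h * ((l : ℝ) + 1) * (be h : ℝ) ^ (h * (l + 1)) := by ring
    · intro y hy
      have h4 : V i0 i0 = S h l := if_pos rfl
      rw [h4] at hy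
      exact (hpl.1 y hy).le
    · intro x _
      have h4 : ((V i0 i0).filter fun y => lf c (Function.update x i0 y) = n).card ≤ 1 := by
        rw [Finset.card_le_one]
        intro a ha b hb'
        have ha' := (Finset.mem_filter.1 ha).2
        have hb2 := (Finset.mem_filter.1 hb').2
        have h5 : ∀ y, lf c (Function.update x i0 y) =
            c i0 * (y : ℤ) + ∑ i ∈ Finset.univ.erase i0, c i * (x i : ℤ) := by
          intro y
          unfold lf
          rw [← Finset.add_sum_erase _ _ (Finset.mem_univ i0), Function.update_self]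
          congr 1
          refine Finset.sum_congr rfl fun i hi => ?_
          rw [Function.update_of_ne (Finset.ne_of_mem_erase hi)]
        rw [h5] at ha' hb2
        have h6 : c i0 * (a : ℤ) = c i0 * (b : ℤ) := by linarith
        have h7 := mul_left_cancel₀ (hc i0).1 h6
        exact_mod_cast h7
      exact_mod_cast h4
  refine h1.trans ((Finset.sum_le_sum fun i0 _ => h2 i0).trans ?_)
  rw [Finset.sum_const, Finset.card_univ, Fintype.card_fin, nsmul_eq_mul]
  have h3 : (j : ℝ) ≤ h := by exact_mod_cast hjh.le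
  have h4 : (0 : ℝ) ≤ (C0 h : ℝ) * 2 ^ h * ((l : ℝ) + 1) / (be h : ℝ) ^ l := by positivity
  refine (mul_le_mul_of_nonneg_right h3 h4).trans (le_of_eq ?_)
  ring

end Pool.Agent.OB
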