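import Mathlib
import Pool.Agent.helper38.OB.Spec
import Pool.Agent.helper59.OB.TA

set_option autoImplicit false

namespace Pool.Agent.OB

open Finset

theorem Dec_top {h : ℕ} (hh : 3 ≤ h) (hBAS : BAS_stmt) {j : ℕ} (hj : 0 < j) {c : Fin j → ℤ} {P : ℤ → Prop}
    {l0 L : ℕ} {x : Fin j → ℕ} (hx : x ∈ RQ c P (U h l0 L)) :
    ∃ l, l ≤ L ∧ (∀ i, lev h (x i) ≤ l) ∧ (∀ i, x i ∈ S h (lev h (x i))) ∧
      x ∈ top h l (RQ c P (U h l0 l)) := by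
  obtain ⟨⟨h1, h2⟩, h3⟩ := TA_memRP.1 hx
  have hne : (Finset.univ : Finset (Fin j)).Nonempty := ⟨⟨0, hj⟩, Finset.mem_univ _⟩
  obtain ⟨i0, -, hi0⟩ := Finset.exists_max_image Finset.univ (fun i => lev h (x i)) hne
  have hS : ∀ i, x i ∈ S h (lev h (x i)) ∧ l0 ≤ lev h (x i) ∧ lev h (x i) ≤ L := by
    intro i
    obtain ⟨k, ⟨hk1, hk2⟩, hk⟩ := TA_memU.1 (h1 i)
    have h4 := ((hBAS h hh k).1 (x i) hk).1
    rw [h4]
    exact ⟨hk, hk1, hk2⟩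
  refine ⟨lev h (x i0), (hS i0).2.2, fun i => hi0 i (Finset.mem_univ i), fun i => (hS i).1, ?_⟩
  rw [TA_memtop]
  refine ⟨TA_memRP.2 ⟨⟨fun i => ?_, h2⟩, h3⟩, i0, rfl⟩
  rw [TA_memU]
  exact ⟨lev h (x i), ⟨(hS i).2.1, hi0 i (Finset.mem_univ i)⟩, (hS i).1⟩

theorem Dec_sum {h : ℕ} {κ : ℝ} (hw : ∀ y, 0 ≤ wt h κ y) {j : ℕ} (F A : Finset (Fin j → ℕ))
    (T : ℕ → Finset (Fin j → ℕ)) (I : Finset ℕ) (hF : ∀ x ∈ F, x ∈ A ∨ ∃ l ∈ I, x ∈ T l) :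
    Ex h κ F ≤ Ex h κ A + ∑ l ∈ I, Ex h κ (T l) := by
  classical
  have hp : ∀ x : Fin j → ℕ, 0 ≤ ∏ i, wt h κ (x i) := fun x => Finset.prod_nonneg fun i _ => hw _
  have h1 : F ⊆ A ∪ I.biUnion T := by
    intro x hx
    rw [Finset.mem_union, Finset.mem_biUnion]
    rcases hF x hx with h2 | ⟨l, hl, h2⟩
    · exact Or.inl h2
    · exact Or.inr ⟨l, hl, h2⟩
  unfold Ex
  refine (Finset.sum_le_sum_of_subset_of_nonneg h1 fun x _ _ => hp x).trans ?_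
  have h2 := Finset.sum_union_inter (s₁ := A) (s₂ := I.biUnion T) (f := fun x => ∏ i, wt h κ (x i))
  have h3 : 0 ≤ ∑ x ∈ A ∩ I.biUnion T, ∏ i, wt h κ (x i) := Finset.sum_nonneg fun x _ => hp x
  have h4 := TA_biUnion I T (fun x => ∏ i, wt h κ (x i)) hp
  linarith

theorem Dec_sq (n : ℕ) : ∑ k ∈ Finset.range (n + 1), 1 / ((k : ℝ) + 1) ^ 2 ≤ 2 - 1 / ((n : ℝ) + 1) := by
  induction n with
  | zero => norm_num
  | succ n ih =>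
    rw [Finset.sum_range_succ]
    have h1 : 1 / (((n + 1 : ℕ) : ℝ) + 1) ^ 2 ≤ 1 / ((n : ℝ) + 1) - 1 / (((n + 1 : ℕ) : ℝ) + 1) := by
      push_cast
      have h2 : (0 : ℝ) < (n : ℝ) + 1 := by positivity
      rw [div_sub_div _ _ (by positivity) (by positivity), div_le_div_iff₀ (by positivity) (by positivity)]
      nlinarith
    linarith

theorem Dec_series (J L : ℕ) : ∑ l ∈ Finset.Icc J L, 1 / ((l - J : ℕ) + 1 : ℝ) ^ 2 ≤ 2 := by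
  have h1 : ∑ l ∈ Finset.Icc J L, 1 / ((l - J : ℕ) + 1 : ℝ) ^ 2 ≤
      ∑ k ∈ Finset.range (L + 1), 1 / ((k : ℝ) + 1) ^ 2 := by
    have h2 : ∑ l ∈ Finset.Icc J L, 1 / ((l - J : ℕ) + 1 : ℝ) ^ 2 =
        ∑ k ∈ (Finset.Icc J L).image (fun l => l - J), 1 / ((k : ℝ) + 1) ^ 2 := by
      rw [Finset.sum_image]
      intro a ha b hb hab
      have ha' := Finset.mem_Icc.1 ha
      have hb' := Finset.mem_Icc.1 hb
      have hab' : a - J = b - J := hab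
      omega
    rw [h2]
    refine Finset.sum_le_sum_of_subset_of_nonneg ?_ fun k _ _ => by positivity
    intro k hk
    obtain ⟨l, hl, rfl⟩ := Finset.mem_image.1 hk
    have hl' := Finset.mem_Icc.1 hl
    rw [Finset.mem_range]
    omega
  have h3 := Dec_sq L
  have h4 : (0 : ℝ) ≤ 1 / ((L : ℝ) + 1) := by positivity
  linarith

theorem Dec_pow2 (a : ℕ) : ((a : ℝ) + 1) ≤ 2 ^ a := by
  have h := Nat.lt_two_pow_self (n := a)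
  have h1 : a + 1 ≤ 2 ^ a := h
  exact_mod_cast h1

theorem Dec_C0 {h : ℕ} (hh : 3 ≤ h) : (8 : ℝ) ≤ C0 h := by
  have h1 : 8 ≤ C0 h := by
    unfold C0
    nlinarith
  exact_mod_cast h1

theorem Dec_a {h : ℕ} (hh : 3 ≤ h) (a : ℕ) : 1 / (C0 h : ℝ) ^ (5 * a) ≤ 1 / ((a : ℝ) + 1) ^ 2 := by
  have h8 := Dec_C0 hh
  refine one_div_le_one_div_of_le (by positivity) ?_
  have h1 := Dec_pow2 a
  have h2 : ((a : ℝ) + 1) ^ 2 ≤ (2 ^ a) ^ 2 := by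
    have : (0 : ℝ) ≤ (a : ℝ) + 1 := by positivity
    exact pow_le_pow_left₀ this h1 2
  refine h2.trans ?_
  rw [← pow_mul, mul_comm a 2, pow_mul]
  have h3 : (C0 h : ℝ) ^ (5 * a) = ((C0 h : ℝ) ^ 5) ^ a := by rw [pow_mul]
  rw [h3]
  refine pow_le_pow_left₀ (by norm_num) ?_ a
  have h4 : (8 : ℝ) ^ 5 ≤ (C0 h : ℝ) ^ 5 := pow_le_pow_left₀ (by norm_num) h8 5
  norm_num at h4 ⊢
  linarith

theorem Dec_dep {h : ℕ} (hh : 3 ≤ h) (hBAS : BAS_stmt) (l : ℕ) :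
    1 / (C0 h : ℝ) ^ (5 * dep h l) ≤ (C0 h : ℝ) ^ 5 / ((l : ℝ) + 1) ^ 2 := by
  have h8 := Dec_C0 hh
  have h1 : ((l : ℝ) + 1) ≤ (C0 h : ℝ) ^ (dep h l + 1) := by
    exact_mod_cast (hBAS h hh l).2.2.2.2.2.le
  rw [div_le_div_iff₀ (by positivity) (by positivity), one_mul]
  have h2 : (C0 h : ℝ) ^ 5 * (C0 h : ℝ) ^ (5 * dep h l) = ((C0 h : ℝ) ^ (dep h l + 1)) ^ 5 := by
    rw [← pow_mul, ← pow_add]
    congr 1
    ring
  rw [h2]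
  have h3 : (1 : ℝ) ≤ (l : ℝ) + 1 := by
    have : (0 : ℝ) ≤ l := by positivity
    linarith
  have h4 : ((l : ℝ) + 1) ^ 2 ≤ ((l : ℝ) + 1) ^ 5 := pow_le_pow_right₀ h3 (by norm_num)
  exact h4.trans (pow_le_pow_left₀ (by positivity) h1 5)

theorem Dec_lJ (J l : ℕ) : 1 / ((l : ℝ) + 1) ^ 2 ≤ 1 / ((l - J : ℕ) + 1 : ℝ) ^ 2 := by
  refine one_div_le_one_div_of_le (by positivity) ?_
  have h1 : ((l - J : ℕ) : ℝ) ≤ l := by exact_mod_cast Nat.sub_le l J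
  exact pow_le_pow_left₀ (by positivity) (by linarith) 2

end Pool.Agent.OB
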