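import Mathlib
import Pool.Agent.helper38.OB.Spec
import Pool.Agent.helper59.OB.Dec

set_option autoImplicit false

namespace Pool.Agent.OB

open Finset

theorem MC (hBAS : BAS_stmt) (hWTS : WTS_stmt) (hLOW : LOW_stmt) (hTC : TC_stmt) : MC_stmt := by
  classical
  intro h hodd hh
  obtain ⟨C, hC, hT⟩ := hTC h hodd hh
  have h8 := Dec_C0 hh
  have hC0 : (0 : ℝ) < C0 h := by linarith
  refine ⟨1 + C * (2 * (1 + (C0 h : ℝ) ^ 5)), by positivity, ?_⟩
  intro κ hκ0 hκ1 l0 L e he J
  have hw0 : ∀ y, 0 ≤ wt h κ y := fun y => (hWTS h hh κ hκ0 hκ1 (lev h y)).2.1.le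
  set B : ℝ := (Bs h : ℝ) ^ J with hB
  have hBpos : 0 < B := by
    have : 0 < Bs h := by
      unfold Bs
      exact pow_pos (TA_be_pos h hh) _
    positivity
  set A : Finset (Fin h → ℕ) := Fintype.piFinset fun _ : Fin h => (U h l0 L).filter fun x => lev h x < J with hA
  have h1 := Dec_sum (h := h) (κ := κ) hw0 (RN e 0 (Bs h ^ J) (U h l0 L)) A
    (fun l => top h l (RN e 0 (Bs h ^ J) (U h l0 l))) (Finset.Icc J L) ?_
  · have h2 : Ex h κ A ≤ κ ^ h * B := by
      have h3 : Ex h κ A = (∑ y ∈ (U h l0 L).filter (fun x => lev h x < J), wt h κ y) ^ h := by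
        unfold Ex
        rw [hA, ← Finset.prod_univ_sum, Finset.prod_const, Finset.card_univ, Fintype.card_fin]
      rw [h3]
      have h4 := (hLOW h hh κ hκ0 hκ1 l0 L J).2
      have h5 : 0 ≤ ∑ y ∈ (U h l0 L).filter (fun x => lev h x < J), wt h κ y :=
        Finset.sum_nonneg fun y _ => hw0 y
      refine (pow_le_pow_left₀ h5 h4 h).trans (le_of_eq ?_)
      rw [mul_pow, hB, ← pow_mul]
      congr 1
      unfold Bs
      push_cast
      rw [← pow_mul]
      congr 1
      ring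
    have h3 : ∑ l ∈ Finset.Icc J L, Ex h κ (top h l (RN e 0 (Bs h ^ J) (U h l0 l))) ≤
        C * κ ^ h * B * (2 * (1 + (C0 h : ℝ) ^ 5)) := by
      have h4 : ∀ l ∈ Finset.Icc J L, Ex h κ (top h l (RN e 0 (Bs h ^ J) (U h l0 l))) ≤
          C * κ ^ h * B * ((1 + (C0 h : ℝ) ^ 5) * (1 / ((l - J : ℕ) + 1 : ℝ) ^ 2)) := by
        intro l hl
        have hJl := (Finset.mem_Icc.1 hl).1
        refine (hT κ hκ0 hκ1 l0 l e he J hJl).trans ?_
        rw [div_eq_mul_one_div]
        refine mul_le_mul_of_nonneg_left ?_ (by positivity)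
        have ha := Dec_a hh (l - J)
        have hd := Dec_dep hh hBAS l
        have hlJ := Dec_lJ J l
        have hp : (0 : ℝ) ≤ (C0 h : ℝ) ^ 5 := by positivity
        have hd2 : 1 / (C0 h : ℝ) ^ (5 * dep h l) ≤ (C0 h : ℝ) ^ 5 * (1 / ((l - J : ℕ) + 1 : ℝ) ^ 2) := by
          refine hd.trans ?_
          rw [div_eq_mul_one_div]
          exact mul_le_mul_of_nonneg_left hlJ hp
        have hq : (0 : ℝ) ≤ 1 / ((l - J : ℕ) + 1 : ℝ) ^ 2 := by positivity
        rcases le_total (l - J) (dep h l) with hm | hm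
        · rw [min_eq_left hm]
          nlinarith
        · rw [min_eq_right hm]
          nlinarith
      refine (Finset.sum_le_sum h4).trans ?_
      rw [← Finset.mul_sum, ← Finset.mul_sum]
      refine mul_le_mul_of_nonneg_left ?_ (by positivity)
      have h5 := Dec_series J L
      have h6 : (0 : ℝ) ≤ 1 + (C0 h : ℝ) ^ 5 := by positivity
      nlinarith
    refine h1.trans ((add_le_add h2 h3).trans (le_of_eq ?_))
    ring
  · intro x hx
    obtain ⟨l, hl1, hl2, hl3, hl4⟩ := Dec_top hh hBAS (by omega) hx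
    by_cases hJ : l < J
    · left
      rw [hA, Fintype.mem_piFinset]
      intro i
      rw [Finset.mem_filter]
      exact ⟨(TA_memRP.1 hx).1.1 i, lt_of_le_of_lt (hl2 i) hJ⟩
    · right
      exact ⟨l, Finset.mem_Icc.2 ⟨not_lt.1 hJ, hl1⟩, hl4⟩

end Pool.Agent.OB
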