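import Mathlib
import Pool.Agent.helper38.OB.Spec
import Pool.Agent.helper59.OB.Dec

set_option autoImplicit false

namespace Pool.Agent.OB

open Finset

theorem MD_a {h : ℕ} (hh : 3 ≤ h) (hBAS : BAS_stmt) (l J : ℕ) (hJ : J ≤ l) :
    (C0 h : ℝ) ^ dep h l / (be h : ℝ) ^ (l - max (lo h l) J) ≤
      ((J : ℝ) + 1) * (1 + (C0 h : ℝ) ^ 5) * (1 / ((l - J : ℕ) + 1 : ℝ) ^ 2) := by
  have h8 := Dec_C0 hh
  have hC0 : (0 : ℝ) < C0 h := by linarith
  obtain ⟨-, -, hd1, -, hd2, -⟩ := hBAS h hh l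
  have hbe : (be h : ℝ) = (C0 h : ℝ) ^ 6 := by
    unfold be
    push_cast
    rfl
  have hJ0 : (0 : ℝ) ≤ J := by positivity
  have hp : (0 : ℝ) ≤ (C0 h : ℝ) ^ 5 := by positivity
  have hq : (0 : ℝ) ≤ 1 / ((l - J : ℕ) + 1 : ℝ) ^ 2 := by positivity
  rcases le_total (l - J) (dep h l) with hm | hm
  · have he : l - max (lo h l) J = l - J := by
      unfold lo
      omega
    rw [he, hbe]
    set a := l - J with ha
    have h1 : (C0 h : ℝ) ^ dep h l ≤ ((J : ℝ) + 1) * ((a : ℝ) + 1) := by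
      have h2 : (C0 h : ℝ) ^ dep h l ≤ (l : ℝ) + 1 := by exact_mod_cast hd2
      have h3 : (l : ℝ) = (J : ℝ) + a := by
        have : l = J + a := by omega
        exact_mod_cast this
      have ha0 : (0 : ℝ) ≤ a := by positivity
      nlinarith
    have h2 : ((a : ℝ) + 1) ≤ (C0 h : ℝ) ^ a :=
      (Dec_pow2 a).trans (pow_le_pow_left₀ (by norm_num) (by linarith) a)
    have h3 : ((C0 h : ℝ) ^ 6) ^ a = (C0 h : ℝ) ^ (5 * a) * (C0 h : ℝ) ^ a := by
      rw [← pow_mul, ← pow_add]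
      congr 1
      ring
    have h4 := Dec_a hh a
    calc (C0 h : ℝ) ^ dep h l / ((C0 h : ℝ) ^ 6) ^ a
        ≤ ((J : ℝ) + 1) * (C0 h : ℝ) ^ a / ((C0 h : ℝ) ^ 6) ^ a := by
          refine div_le_div_of_nonneg_right ?_ (by positivity)
          exact h1.trans (mul_le_mul_of_nonneg_left h2 (by positivity))
      _ = ((J : ℝ) + 1) * (1 / (C0 h : ℝ) ^ (5 * a)) := by
          rw [h3]
          field_simp
      _ ≤ ((J : ℝ) + 1) * (1 / ((a : ℝ) + 1) ^ 2) := mul_le_mul_of_nonneg_left h4 (by positivity)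
      _ ≤ ((J : ℝ) + 1) * (1 + (C0 h : ℝ) ^ 5) * (1 / ((a : ℝ) + 1) ^ 2) := by
          refine mul_le_mul_of_nonneg_right ?_ hq
          nlinarith
  · have he : l - max (lo h l) J = dep h l := by
      unfold lo
      omega
    rw [he, hbe]
    have h1 : (C0 h : ℝ) ^ dep h l / ((C0 h : ℝ) ^ 6) ^ dep h l = 1 / (C0 h : ℝ) ^ (5 * dep h l) := by
      have h3 : ((C0 h : ℝ) ^ 6) ^ dep h l = (C0 h : ℝ) ^ (5 * dep h l) * (C0 h : ℝ) ^ dep h l := by
        rw [← pow_mul, ← pow_add]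
        congr 1
        ring
      rw [h3]
      field_simp
    rw [h1]
    have hd := Dec_dep hh hBAS l
    have hlJ := Dec_lJ J l
    have hd2' : 1 / (C0 h : ℝ) ^ (5 * dep h l) ≤ (C0 h : ℝ) ^ 5 * (1 / ((l - J : ℕ) + 1 : ℝ) ^ 2) := by
      refine hd.trans ?_
      rw [div_eq_mul_one_div]
      exact mul_le_mul_of_nonneg_left hlJ hp
    refine hd2'.trans (mul_le_mul_of_nonneg_right ?_ hq)
    nlinarith

theorem MD_lf {h : ℕ} (hh : 3 ≤ h) (hBAS : BAS_stmt) {e : Fin h → ℤ} (he : Sg e) {x : Fin h → ℕ} {l : ℕ}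
    (h1 : ∀ i, lev h (x i) ≤ l) (h2 : ∀ i, x i ∈ S h (lev h (x i))) :
    (lf e x).natAbs ≤ Bs h ^ (l + 1) := by
  have hB : 1 ≤ Bs h := by
    have : 0 < Bs h := by
      unfold Bs
      exact pow_pos (TA_be_pos h hh) _
    omega
  have h3 : ∀ i, 2 * h * x i < Bs h ^ (l + 1) := fun i =>
    lt_of_lt_of_le ((hBAS h hh _).1 (x i) (h2 i)).2.2 (Nat.pow_le_pow_right hB (by have := h1 i; omega))
  have h4 : (lf e x).natAbs ≤ ∑ i, x i := by
    have h5 : |lf e x| ≤ ∑ i, (x i : ℤ) := by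
      unfold lf
      refine (Finset.abs_sum_le_sum_abs _ _).trans (Finset.sum_le_sum fun i _ => ?_)
      rw [abs_mul]
      rcases he i with h6 | h6 <;> rw [h6] <;> simp
    zify
    exact h5
  refine h4.trans ?_
  have h5 : h * ∑ i, x i ≤ h * Bs h ^ (l + 1) := by
    rw [Finset.mul_sum]
    calc ∑ i, h * x i ≤ ∑ _i : Fin h, Bs h ^ (l + 1) := Finset.sum_le_sum fun i _ => by
            have := h3 i
            nlinarith
      _ = h * Bs h ^ (l + 1) := by
            rw [Finset.sum_const, Finset.card_univ, Fintype.card_fin, smul_eq_mul]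
  exact Nat.le_of_mul_le_mul_left h5 (by omega)

theorem MD (hBAS : BAS_stmt) (hWTS : WTS_stmt) (hTD : TD_stmt) : MD_stmt := by
  classical
  intro h hodd hh
  obtain ⟨C, hC, hT⟩ := hTD h hodd hh
  refine ⟨C * (1 + 2 * (1 + (C0 h : ℝ) ^ 5)), by positivity, ?_⟩
  intro κ hκ0 hκ1 l0 L e he t
  have hw0 : ∀ y, 0 ≤ wt h κ y := fun y => (hWTS h hh κ hκ0 hκ1 (lev h y)).2.1.le
  have hB1 : 1 < Bs h := by
    have h1 : 1 < be h := by
      unfold be
      have h8 : 8 ≤ C0 h := by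
        unfold C0
        nlinarith
      exact Nat.one_lt_pow (by norm_num) (by omega)
    unfold Bs
    exact Nat.one_lt_pow (by omega) h1
  set J := Nat.clog (Bs h) t.natAbs with hJ
  have htJ : |t| ≤ (Bs h : ℤ) ^ J := by
    have h1 := Nat.le_pow_clog hB1 t.natAbs
    rw [← hJ] at h1
    zify at h1
    exact h1
  have h1 := Dec_sum (h := h) (κ := κ) hw0 (RP e t (U h l0 L)) (top h (J - 1) (RP e t (U h l0 (J - 1))))
    (fun l => top h l (RP e t (U h l0 l))) (Finset.Icc J L) ?_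
  · have h2 : Ex h κ (top h (J - 1) (RP e t (U h l0 (J - 1)))) ≤ C * ((J : ℝ) + 1) := by
      refine (hT κ hκ0 hκ1 l0 (J - 1) e he t).1.trans (mul_le_mul_of_nonneg_left ?_ hC.le)
      have : ((J - 1 : ℕ) : ℝ) ≤ J := by exact_mod_cast Nat.sub_le J 1
      linarith
    have h3 : ∑ l ∈ Finset.Icc J L, Ex h κ (top h l (RP e t (U h l0 l))) ≤
        C * (((J : ℝ) + 1) * (1 + (C0 h : ℝ) ^ 5)) * 2 := by
      have h4 : ∀ l ∈ Finset.Icc J L, Ex h κ (top h l (RP e t (U h l0 l))) ≤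
          C * (((J : ℝ) + 1) * (1 + (C0 h : ℝ) ^ 5)) * (1 / ((l - J : ℕ) + 1 : ℝ) ^ 2) := by
        intro l hl
        have hJl := (Finset.mem_Icc.1 hl).1
        refine ((hT κ hκ0 hκ1 l0 l e he t).2 J hJl htJ).trans ?_
        rw [mul_div_assoc, mul_assoc]
        exact mul_le_mul_of_nonneg_left (MD_a hh hBAS l J hJl) hC.le
      refine (Finset.sum_le_sum h4).trans ?_
      rw [← Finset.mul_sum]
      exact mul_le_mul_of_nonneg_left (Dec_series J L) (by positivity)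
    refine h1.trans ((add_le_add h2 h3).trans (le_of_eq ?_))
    ring
  · intro x hx
    obtain ⟨l, hl1, hl2, hl3, hl4⟩ := Dec_top hh hBAS (by omega) hx
    have hxt : lf e x = t := (TA_memRP.1 hx).2
    have h5 := MD_lf hh hBAS he hl2 hl3
    rw [hxt] at h5
    have h6 : J ≤ l + 1 := Nat.clog_le_of_le_pow h5
    by_cases hlJ : l < J
    · left
      have : l = J - 1 := by omega
      rw [← this]
      exact hl4
    · right
      exact ⟨l, Finset.mem_Icc.2 ⟨not_lt.1 hlJ, hl1⟩, hl4⟩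

end Pool.Agent.OB
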